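import Pool.Agent.Helper61.MM.DefsC
import Pool.Agent.Helper61.MM.OkLem
import Pool.Agent.Helper60.TJ.F

set_option autoImplicit false

/-!
# Exit: behind barriers both replicas leave along the wall in the right direction
(deterministic)
-/

namespace Pool.Helper86.MM

open MeasureTheory Filter Topology Pool.Agent.Helper60.TJ Pool.Agent.Helper61.MM
open scoped symmDiff

private theorem two_aux : ∀ f : Dir → Bool, xor (xor (f 0) (f 1)) (xor (f 2) (f 3)) = false →
    (∃ d, f d = false) → ∀ d d' e : Dir, f d = true → f d' = true → d ≠ d' → f e = true →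
    e = d ∨ e = d' := by decide

private theorem par_aux : ∀ g : Dir → Bool, ∀ d d' : Dir, d ≠ d' →
    (∀ e, e ≠ d → e ≠ d' → g e = false) →
    xor (xor (g 0) (g 1)) (xor (g 2) (g 3)) = xor (g d) (g d') := by decide

/-- an even edge set which is inside the wall near `v` is constant on the wall edges at `v` -/
theorem loc_const {W : Ed → Bool} (h : Deg2 W) {F : Ed → Bool} {v : Vx}
    (hF : ∀ d, W (edg v d) = false → F (edg v d) = false) (hp : par F v = false) {d d' : Dir}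
    (hd : W (edg v d) = true) (hd' : W (edg v d') = true) : F (edg v d) = F (edg v d') := by
  by_cases hne : d = d'
  · rw [hne]
  have h1 : par F v = xor (F (edg v d)) (F (edg v d')) := by
    refine par_aux (fun e => F (edg v e)) d d' hne (fun e he he' => ?_)
    by_contra hc
    have hW : W (edg v e) = true := by
      cases hWe : W (edg v e)
      · exact absurd (hF e hWe) hc
      · rfl
    have h2 := two_aux (fun e => W (edg v e)) (h.1 v) (h.2 v) d d' e hd hd' hne hW
    rcases h2 with h2 | h2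
    · exact he h2
    · exact he' h2
  rw [hp] at h1
  cases h2 : F (edg v d) <;> cases h3 : F (edg v d') <;> rw [h2, h3] at h1 <;> simp at h1 ⊢

theorem box_mono {a b : ℕ} (hab : a ≤ b) : box a ⊆ box b := by
  intro v hv
  simp only [box, Finset.mem_product, Finset.mem_Icc] at hv ⊢
  omega

theorem box_neg {n : ℕ} {v : Vx} (h : v ∈ box n) : -v ∈ box n := by
  simp only [box, Finset.mem_product, Finset.mem_Icc, Prod.fst_neg, Prod.snd_neg] at h ⊢
  omega

/-- the walk based at `y` -/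
theorem GY_base {p : XX} (hdeg : Deg2 (wl p))
    (hac : ∀ C : Finset Ed, IsCyc C → (∀ e ∈ C, wl p e = true) → C = ∅) {y : Vx} {d : Dir}
    (hd : wl p (edg y d) = true) : GY (shX y p, d) := by
  refine ⟨⟨fun v => ?_, fun v => ?_⟩, ?_, fun C hC hCW => ?_⟩
  · show par (sh y (wl p)) v = false
    rw [par_sh]; exact hdeg.1 _
  · obtain ⟨d', hd'⟩ := hdeg.2 (v + y)
    exact ⟨d', by show sh y (wl p) (edg v d') = false; rw [sh_edg]; exact hd'⟩
  · show sh y (wl p) (edg 0 d) = true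
    rw [sh_edg, zero_add]; exact hd
  · have h1 : shF (-y) C = ∅ := by
      refine hac _ (isCyc_shF.2 hC) (fun e he => ?_)
      rw [mem_shF] at he
      have h2 := hCW _ he
      have h3 : sh y (wl p) (e.1 + -y, e.2) = true := h2
      unfold sh at h3
      simpa using h3
    rw [← shF_zero C, ← add_neg_cancel y, ← shF_shF y (-y) C, h1]
    ext e
    simp [mem_shF]

/-- the edges of the walk based at `y` -/
def wE (p : XX) (y : Vx) (d : Dir) (k : ℕ) : Ed :=
  edg (pos (shX y p, d) k + y) ((Th^[k] (shX y p, d)).2)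

theorem wE_zero (p : XX) (y : Vx) (d : Dir) : wE p y d 0 = edg y d := by
  unfold wE
  simp [pos]

theorem wE_eq (p : XX) (y : Vx) (d : Dir) (k : ℕ) :
    wE p y d k = ((wedge (shX y p, d) k).1 + y, (wedge (shX y p, d) k).2) := by
  unfold wE wedge
  rw [edg_add]

theorem wE_mem {p : XX} {y : Vx} {d : Dir} (h : GY (shX y p, d)) (k : ℕ) :
    wl p (wE p y d k) = true := by
  have h1 := wedge_mem h k
  rw [wE_eq]
  exact h1

theorem wE_opp (p : XX) (y : Vx) (d : Dir) (k : ℕ) :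
    wE p y d k = edg (pos (shX y p, d) (k + 1) + y) (opp ((Th^[k] (shX y p, d)).2)) := by
  unfold wE
  show _ = edg (pos (shX y p, d) k + stp ((Th^[k] (shX y p, d)).2) + y) _
  rw [add_right_comm, edg_opp]

section One

variable {ω : Env} {s : Vl}

/-- the side on which one replica leaves `y` -/
theorem one_side (h : Ok ω s) {p : XX} (hdeg : Deg2 (wl p))
    (hac : ∀ C : Finset Ed, IsCyc C → (∀ e ∈ C, wl p e = true) → C = ∅)
    {n : ℕ} {C K : ℝ} (hC : 0 ≤ C) (hK : C < K) {y y' : Vx} {A A₁ : Finset Ed}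
    (hAW : ∀ e ∈ A, wl p e = false) (hAn : ∀ e ∈ bEy (n + 1) y, wl p e = false → e ∈ A)
    (hA₁ : ∀ e, e ∈ A₁ ↔ (e ∈ A ∧ uu s g0 e = true))
    (hr : ∀ e ∈ A, ww g0 ω e + K < ww (sg2 g0 A) ω e) {D X : Finset Ed}
    (hD : par (ind D) = vx (dl y) (dl y')) (hX : ∀ e ∈ X, wl p e = true)
    (hXp : par (ind X) = vx (dl y) (dl y'))
    (hdef : en (ww g0 ω) (uu s g0) X ≤ hh s g0 D + C) :
    uu s (tg (sg2 g0 A) A₁) = bx (uu s g0) (ind A₁) ∧
    ((∀ d, wl p (edg y d) = true →
      bx (uu s (tg (sg2 g0 A) A₁)) (uu s (tg (tg (sg2 g0 A) A₁) D)) (edg y d) = ind X (edg y d)) ∨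
      (∀ v (Y : Finset Ed), Wn n p y v → (∀ e ∈ Y, wl p e = true) →
        par (ind Y) = vx (dl v) (dl y') →
        (∀ D' : Finset Ed, par (ind D') = vx (dl v) (dl y') →
          en (ww g0 ω) (uu s g0) Y ≤ hh s g0 D' + C) →
        en (ww g0 ω) (uu s g0) Y ≤ en (ww g0 ω) (uu s g0) X + C / 2)) := by
  set G : Gm := tg (sg2 g0 A) A₁ with hG
  have hAsub : A₁ ⊆ A := fun e he => ((hA₁ e).1 he).1
  have hdec : ∀ e ∈ A, uu s g0 e = decide (e ∈ A₁) := by
    intro e he
    cases hu : uu s g0 e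
    · symm
      rw [decide_eq_false_iff_not, hA₁]
      rintro ⟨-, h1⟩
      rw [hu] at h1
      exact Bool.noConfusion h1
    · symm
      rw [decide_eq_true_iff, hA₁]
      exact ⟨he, hu⟩
  obtain ⟨hG1, hG2⟩ := h.raise g0 A A₁ K hAsub hdec (hC.trans hK.le) hr
  rw [← hG] at hG1 hG2
  refine ⟨hG1, ?_⟩
  -- weights and state on the wall
  have hww : ∀ g' : Gm, g'.2 = G.2 → ∀ e, wl p e = true → ww g' ω e = ww g0 ω e := by
    intro g' hg' e he
    have hGA : G.2 = A := by
      show (∅ : Finset Ed) ∆ A = A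
      exact bot_symmDiff A
    have hn : e ∉ A := fun h1 => by
      rw [hAW e h1] at he
      exact Bool.noConfusion he
    unfold ww
    rw [hg', hGA, if_neg hn]
    simp
  have hUG : ∀ e, wl p e = true → uu s G e = uu s g0 e := by
    intro e he
    have hn : ind A₁ e = false := by
      cases hi : ind A₁ e
      · rfl
      · have h1 := hAW e (hAsub (ind_eq_true.1 hi))
        rw [h1] at he
        exact Bool.noConfusion he
    rw [hG1]
    unfold bx
    rw [hn, Bool.xor_false]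
  have henG : ∀ Z : Finset Ed, (∀ e ∈ Z, wl p e = true) →
      en (ww G ω) (uu s G) Z = en (ww g0 ω) (uu s g0) Z := by
    intro Z hZ
    unfold en
    refine Finset.sum_congr rfl (fun e he => ?_)
    rw [hww G rfl e (hZ e he), hUG e (hZ e he)]
  have hleG : hh s G D ≤ en (ww g0 ω) (uu s g0) X := by
    rw [← henG X hX]
    exact h.le G D X (hXp.trans hD.symm)
  obtain ⟨-, hoff⟩ := hG2 D
  have hoff := hoff (by linarith)
  set F : Ed → Bool := bx (bx (uu s G) (uu s (tg G D))) (ind X) with hFdef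
  have hFoff : ∀ e ∈ A, F e = false := by
    intro e he
    have h1 := hoff e he
    have h2 : ind X e = false := by
      cases hi : ind X e
      · rfl
      · have h3 := hX e (ind_eq_true.1 hi)
        rw [hAW e he] at h3
        exact Bool.noConfusion h3
    rw [hFdef]
    show xor (xor (uu s G e) (uu s (tg G D) e)) (ind X e) = false
    rw [h1, h2]
    simp
  have hFpar : ∀ v, par F v = false := by
    intro v
    rw [hFdef, par_bx, par_bx, h.parU G, h.parU (tg G D), tt_tg G D ω, hD, hXp]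
    unfold vx
    cases tt G ω v <;> cases dl y v <;> cases dl y' v <;> rfl
  have hconst : ∀ v, v - y ∈ box (n + 1) → ∀ d d' : Dir, wl p (edg v d) = true →
      wl p (edg v d') = true → F (edg v d) = F (edg v d') := by
    intro v hv d d' hd hd'
    refine loc_const hdeg (fun e he => hFoff _ (hAn _ ?_ he)) (hFpar v) hd hd'
    unfold bEy
    rw [Finset.mem_image]
    refine ⟨(v - y, e), Finset.mem_product.2 ⟨hv, Finset.mem_univ _⟩, ?_⟩
    show edg (y + (v - y)) e = edg v e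
    rw [add_sub_cancel]
  have h0box : ∀ m, (0 : Vx) ∈ box m := by
    intro m
    simp only [box, Finset.mem_product, Finset.mem_Icc, Prod.fst_zero, Prod.snd_zero]
    omega
  have hy : ∀ d d' : Dir, wl p (edg y d) = true → wl p (edg y d') = true →
      F (edg y d) = F (edg y d') := fun d d' hd hd' =>
    hconst y (by rw [sub_self]; exact h0box _) d d' hd hd'
  -- along the walk
  have hwalk : ∀ d, wl p (edg y d) = true → ∀ k ≤ n, F (wE p y d k) = F (edg y d) := by
    intro d hd k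
    have hg := GY_base hdeg hac hd
    induction k with
    | zero => intro _; rw [wE_zero]
    | succ k ih =>
      intro hk
      rw [← ih (by omega)]
      have h1 := wE_mem hg k
      have h2 := wE_mem hg (k + 1)
      rw [wE_opp p y d k] at h1 ⊢
      have h3 : wE p y d (k + 1) = edg (pos (shX y p, d) (k + 1) + y)
        ((Th^[k + 1] (shX y p, d)).2) := rfl
      rw [h3] at h2 ⊢
      refine hconst _ ?_ _ _ h2 h1
      rw [add_sub_cancel_right]
      exact box_mono (by omega) (pos_mem_box _ _)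
  by_cases hex : ∃ d0, wl p (edg y d0) = true
  swap
  · left
    intro d hd
    exact absurd ⟨d, hd⟩ hex
  obtain ⟨d0, hd0⟩ := hex
  cases hc : F (edg y d0)
  · left
    intro d hd
    have h1 := hy d d0 hd hd0
    rw [hc, hFdef] at h1
    have h2 : xor (bx (uu s G) (uu s (tg G D)) (edg y d)) (ind X (edg y d)) = false := h1
    cases h3 : bx (uu s G) (uu s (tg G D)) (edg y d) <;> cases h4 : ind X (edg y d) <;>
      rw [h3, h4] at h2 <;> simp at h2 ⊢
  · right
    intro v Y hWn hYW hYp hYdef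
    obtain ⟨d, hd, m, hm, hv⟩ := hWn
    have hg := GY_base hdeg hac hd
    set S : Finset Ed := shF (-y) (seg (shX y p, d) m) with hS
    have hSmem : ∀ e ∈ S, ∃ k < m, e = wE p y d k := by
      intro e he
      rw [hS, mem_shF] at he
      unfold seg at he
      rw [Finset.mem_image] at he
      obtain ⟨k, hk, hke⟩ := he
      refine ⟨k, Finset.mem_range.1 hk, ?_⟩
      rw [wE_eq, hke]
      simp
    have hSW : ∀ e ∈ S, wl p e = true := by
      intro e he
      obtain ⟨k, -, rfl⟩ := hSmem e he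
      exact wE_mem hg k
    have hSF : ∀ e ∈ S, F e = true := by
      intro e he
      obtain ⟨k, hk, rfl⟩ := hSmem e he
      rw [hwalk d hd k (by omega), hy d d0 hd hd0, hc]
    have hSp : par (ind S) = vx (dl y) (dl v) := by
      funext x
      rw [hS, ind_shF, par_sh, par_seg hg]
      show xor (dl 0 (x + -y)) (dl (pos (shX y p, d) m) (x + -y)) = xor (dl y x) (dl v x)
      have e1 : dl 0 (x + -y) = dl y x := by
        unfold dl
        rw [decide_eq_decide, ← sub_eq_add_neg, sub_eq_zero]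
      have e2 : dl (pos (shX y p, d) m) (x + -y) = dl v x := by
        unfold dl
        rw [decide_eq_decide, ← sub_eq_add_neg, sub_eq_iff_eq_add, hv, add_comm y]
      rw [e1, e2]
    have hDS : par (ind (D ∆ S)) = vx (dl v) (dl y') := by
      rw [par_ind_symmDiff, hD, hSp, vx_comm (dl y) (dl y'), vx_trans, vx_comm]
    have hXS : par (ind (X ∆ S)) = vx (dl v) (dl y') := by
      rw [par_ind_symmDiff, hXp, hSp, vx_comm (dl y) (dl y'), vx_trans, vx_comm]
    have hYXS : Y = X ∆ S := by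
      have h1 := hac (Y ∆ (X ∆ S)) (isCyc_symmDiff_of_eq (hYp.trans hXS.symm)) (fun e he => by
        rw [Finset.mem_symmDiff, Finset.mem_symmDiff] at he
        rcases he with he | he
        · exact hYW e he.1
        · rcases he.1 with he | he
          · exact hX e he.1
          · exact hSW e he.1)
      exact symmDiff_eq_bot.1 h1
    have h1 := hYdef (D ∆ S) hDS
    have h2 := (hG2 (D ∆ S)).1
    have h3 := h.coc G D S
    have h4 := h.le (tg G D) S S rfl
    have h5 : en (ww (tg G D) ω) (uu s (tg G D)) S = - en (ww g0 ω) (bx (uu s g0) (ind X)) S := by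
      unfold en
      rw [← Finset.sum_neg_distrib]
      refine Finset.sum_congr rfl (fun e he => ?_)
      have h6 := hSF e he
      have h7 : xor (xor (uu s G e) (uu s (tg G D) e)) (ind X e) = true := h6
      have h8 : uu s (tg G D) e = !(bx (uu s g0) (ind X) e) := by
        show uu s (tg G D) e = !(xor (uu s g0 e) (ind X e))
        rw [hUG e (hSW e he)] at h7
        cases h9 : uu s (tg G D) e <;> cases h10 : uu s g0 e <;> cases h11 : ind X e <;>
          rw [h9, h10, h11] at h7 <;> simp at h7 ⊢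
      rw [h8, sg_not, hww (tg G D) rfl e (hSW e he)]
      ring
    have h6 : en (ww g0 ω) (uu s g0) Y =
        en (ww g0 ω) (uu s g0) X + en (ww g0 ω) (bx (uu s g0) (ind X)) S := by
      rw [hYXS, en_symmDiff]
    rw [h3] at h2
    linarith

end One

theorem rp_aO (G : Gm) (z : Om) (i : Fin 3) : rp (aO G z) i = aV G (rp z i) := by
  fin_cases i <;> rfl

theorem gad_g0 (G : Gm) : gad G g0 = G := by
  unfold gad
  have h1 : G.1 ∆ (∅ : Finset Vx) = G.1 := symmDiff_bot _
  have h2 : G.2 ∆ (∅ : Finset Ed) = G.2 := symmDiff_bot _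
  show (G.1 ∆ (∅ : Finset Vx), G.2 ∆ (∅ : Finset Ed)) = G
  rw [h1, h2]

theorem gad_txy (G : Gm) {D : Finset Ed} {y y' : Vx} (hD : par (ind D) = vx (dl y) (dl y')) :
    gad G (txy y y') = tg G D := by
  unfold gad tg txy
  rw [bdy_eq hD]
  have h2 : G.2 ∆ (∅ : Finset Ed) = G.2 := symmDiff_bot _
  show (G.1 ∆ (({y} : Finset Vx) ∆ {y'}), G.2 ∆ (∅ : Finset Ed)) = _
  rw [h2]

/-- `A` = off-wall edges near `y` and `y'`, `A₁` = those of them which are unsatisfied; on `A` the
spare weights are larger by more than `K > C` -/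
theorem exit {z : Om} (hz : ∀ i, Ok z.1 (rp z i)) (h1 : One (pr 0 1 g0 z))
    (hac : ∀ C : Finset Ed, IsCyc C → (∀ e ∈ C, wl (pr 0 1 g0 z) e = true) → C = ∅)
    {n : ℕ} {C K : ℝ} (hC : 0 ≤ C) (hK : C < K) {y y' : Vx} (_hfar : y' - y ∉ box (2 * n + 4))
    (hg : z ∈ GG n C y y')
    {A A₁ : Finset Ed} (hA : ∀ e, e ∈ A ↔ (e ∈ bEy (n + 1) y ∪ bEy (n + 1) y' ∧
      wl (pr 0 1 g0 z) e = false))
    (hA₁ : ∀ e, e ∈ A₁ ↔ (e ∈ A ∧ uu (rp z 0) g0 e = true))
    (hr : ∀ e ∈ A, ww g0 z.1 e + K < ww (sg2 g0 A) z.1 e) :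
    aO (tg (sg2 g0 A) A₁) z ∈ Ex2 y y' := by
  obtain ⟨hDf, hOy, hOy', hdft, hgd, hgd'⟩ := hg
  obtain ⟨hdeg, -, hcn⟩ := h1
  obtain ⟨X, hXW, hXp⟩ := hcn y y' hOy hOy'
  have hXp' : par (ind X) = vx (dl y') (dl y) := by rw [hXp, vx_comm]
  have hwlp : ∀ e, wl (pr 0 1 g0 z) e = bx (uu (rp z 0) g0) (uu (rp z 1) g0) e := fun _ => rfl
  have hAW : ∀ e ∈ A, wl (pr 0 1 g0 z) e = false := fun e he => ((hA e).1 he).2
  have hAn : ∀ e ∈ bEy (n + 1) y, wl (pr 0 1 g0 z) e = false → e ∈ A := fun e he hw =>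
    (hA e).2 ⟨Finset.mem_union_left _ he, hw⟩
  have hAn' : ∀ e ∈ bEy (n + 1) y', wl (pr 0 1 g0 z) e = false → e ∈ A := fun e he hw =>
    (hA e).2 ⟨Finset.mem_union_right _ he, hw⟩
  have hA₁' : ∀ e, e ∈ A₁ ↔ (e ∈ A ∧ uu (rp z 1) g0 e = true) := by
    intro e
    rw [hA₁]
    refine and_congr_right (fun he => ?_)
    have h2 := hAW e he
    rw [hwlp] at h2
    have h3 : xor (uu (rp z 0) g0 e) (uu (rp z 1) g0 e) = false := h2
    cases h4 : uu (rp z 0) g0 e <;> cases h5 : uu (rp z 1) g0 e <;> rw [h4, h5] at h3 <;>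
      simp at h3 ⊢
  have hen1 : ∀ Z : Finset Ed, (∀ e ∈ Z, wl (pr 0 1 g0 z) e = true) →
      en (ww g0 z.1) (uu (rp z 1) g0) Z = - en (ww g0 z.1) (uu (rp z 0) g0) Z :=
    fun Z hZ => en_wall (fun e he => hZ e he)
  have huniq : ∀ {Z Z' : Finset Ed}, (∀ e ∈ Z, wl (pr 0 1 g0 z) e = true) →
      (∀ e ∈ Z', wl (pr 0 1 g0 z) e = true) → par (ind Z) = par (ind Z') → Z = Z' := by
    intro Z Z' hZ hZ' hp
    have h2 := hac (Z ∆ Z') (isCyc_symmDiff_of_eq hp) (fun e he => by
      rw [Finset.mem_symmDiff] at he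
      rcases he with he | he
      · exact hZ e he.1
      · exact hZ' e he.1)
    exact symmDiff_eq_bot.1 h2
  obtain ⟨hd0, hd1⟩ := hdft X X hXp ⟨hXW, hXp⟩
  have hd1' : en (ww g0 z.1) (uu (rp z 1) g0) X ≤ hh (rp z 1) g0 X + C := by
    rw [hen1 X hXW]; exact hd1
  set G : Gm := tg (sg2 g0 A) A₁ with hG
  -- the four applications
  obtain ⟨hU0, ha0⟩ := one_side (hz 0) hdeg hac hC hK hAW hAn hA₁ hr hXp hXW hXp hd0
  obtain ⟨hU1, ha1⟩ := one_side (hz 1) hdeg hac hC hK hAW hAn hA₁' hr hXp hXW hXp hd1'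
  obtain ⟨-, hb0⟩ := one_side (hz 0) hdeg hac hC hK hAW hAn' hA₁ hr hXp' hXW hXp' hd0
  obtain ⟨-, hb1⟩ := one_side (hz 1) hdeg hac hC hK hAW hAn' hA₁' hr hXp' hXW hXp' hd1'
  rw [← hG] at hU0 hU1 ha0 ha1 hb0 hb1
  -- exclude the wrong sides
  have excl0 : ∀ a b : Vx, Gd n C a b z → par (ind X) = vx (dl a) (dl b) →
      ¬ (∀ v (Y : Finset Ed), Wn n (pr 0 1 g0 z) a v → (∀ e ∈ Y, wl (pr 0 1 g0 z) e = true) →
        par (ind Y) = vx (dl v) (dl b) →
        (∀ D' : Finset Ed, par (ind D') = vx (dl v) (dl b) →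
          en (ww g0 z.1) (uu (rp z 0) g0) Y ≤ hh (rp z 0) g0 D' + C) →
        en (ww g0 z.1) (uu (rp z 0) g0) Y ≤ en (ww g0 z.1) (uu (rp z 0) g0) X + C / 2) := by
    intro a b hgd hXab hcon
    obtain ⟨⟨v, X1, Y, hWn, hdv, hX1, hY, hlt⟩, -⟩ := hgd
    have hX1X : X1 = X := huniq hX1.1 hXW (hX1.2.trans hXab.symm)
    subst hX1X
    have h2 := hcon v Y hWn hY.1 hY.2 (fun D' hD' => (hdv D' Y hD' hY).1)
    linarith
  have excl1 : ∀ a b : Vx, Gd n C a b z → par (ind X) = vx (dl a) (dl b) →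
      ¬ (∀ v (Y : Finset Ed), Wn n (pr 0 1 g0 z) a v → (∀ e ∈ Y, wl (pr 0 1 g0 z) e = true) →
        par (ind Y) = vx (dl v) (dl b) →
        (∀ D' : Finset Ed, par (ind D') = vx (dl v) (dl b) →
          en (ww g0 z.1) (uu (rp z 1) g0) Y ≤ hh (rp z 1) g0 D' + C) →
        en (ww g0 z.1) (uu (rp z 1) g0) Y ≤ en (ww g0 z.1) (uu (rp z 1) g0) X + C / 2) := by
    intro a b hgd hXab hcon
    obtain ⟨-, ⟨v, X1, Y, hWn, hdv, hX1, hY, hlt⟩⟩ := hgd
    have hX1X : X1 = X := huniq hX1.1 hXW (hX1.2.trans hXab.symm)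
    subst hX1X
    have h2 := hcon v Y hWn hY.1 hY.2 (fun D' hD' => by
      rw [hen1 Y hY.1]; exact (hdv D' Y hD' hY).2)
    rw [hen1 Y hY.1, hen1 X1 hXW] at h2
    linarith
  have ha0' := ha0.resolve_right (excl0 y y' hgd hXp)
  have ha1' := ha1.resolve_right (excl1 y y' hgd hXp)
  have hb0' := hb0.resolve_right (excl0 y' y hgd' hXp')
  have hb1' := hb1.resolve_right (excl1 y' y hgd' hXp')
  -- the wall after raising
  have hwG : bx (uu (rp z 0) G) (uu (rp z 1) G) = wl (pr 0 1 g0 z) := by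
    rw [hU0, hU1]
    funext e
    show xor (xor (uu (rp z 0) g0 e) (ind A₁ e)) (xor (uu (rp z 1) g0 e) (ind A₁ e)) =
      xor (uu (rp z 0) g0 e) (uu (rp z 1) g0 e)
    cases uu (rp z 0) g0 e <;> cases uu (rp z 1) g0 e <;> cases ind A₁ e <;> rfl
  have hwl0 : wl (pr 0 1 g0 (aO G z)) = wl (pr 0 1 g0 z) := by
    show bx (uu (rp (aO G z) 0) g0) (uu (rp (aO G z) 1) g0) = _
    rw [rp_aO, rp_aO]
    show bx (uu (rp z 0) (gad G g0)) (uu (rp z 1) (gad G g0)) = _
    rw [gad_g0, hwG]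
  have hwl1 : ∀ e, wl (pr 0 1 (txy y y') (aO G z)) e =
      xor (wl (pr 0 1 g0 z) e) (xor (bx (uu (rp z 0) G) (uu (rp z 0) (tg G X)) e)
        (bx (uu (rp z 1) G) (uu (rp z 1) (tg G X)) e)) := by
    intro e
    show bx (uu (rp (aO G z) 0) (txy y y')) (uu (rp (aO G z) 1) (txy y y')) e = _
    rw [rp_aO, rp_aO]
    show bx (uu (rp z 0) (gad G (txy y y'))) (uu (rp z 1) (gad G (txy y y'))) e = _
    rw [gad_txy G hXp, ← hwG]
    show xor (uu (rp z 0) (tg G X) e) (uu (rp z 1) (tg G X) e) =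
      xor (xor (uu (rp z 0) G e) (uu (rp z 1) G e))
        (xor (xor (uu (rp z 0) G e) (uu (rp z 0) (tg G X) e))
          (xor (uu (rp z 1) G e) (uu (rp z 1) (tg G X) e)))
    cases uu (rp z 0) (tg G X) e <;> cases uu (rp z 1) (tg G X) e <;> cases uu (rp z 0) G e <;>
      cases uu (rp z 1) G e <;> rfl
  refine ⟨?_, ?_, ?_, ?_, ?_⟩
  · show uu (rp (aO G z) 0) g0 ≠ uu (rp (aO G z) 1) g0
    intro heq
    obtain ⟨d, hd⟩ := hOy
    have h2 : wl (pr 0 1 g0 (aO G z)) (edg y d) = false := by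
      show xor (uu (rp (aO G z) 0) g0 (edg y d)) (uu (rp (aO G z) 1) g0 (edg y d)) = false
      rw [heq, Bool.xor_self]
    rw [hwl0, hd] at h2
    exact Bool.noConfusion h2
  · rw [hwl0]; exact hOy
  · rw [hwl0]; exact hOy'
  · obtain ⟨d, hd⟩ := hOy
    refine ⟨d, ?_⟩
    rw [hwl1, ha0' d hd, ha1' d hd, hd]
    cases ind X (edg y d) <;> rfl
  · obtain ⟨d, hd⟩ := hOy'
    refine ⟨d, ?_⟩
    rw [hwl1, hb0' d hd, hb1' d hd, hd]
    cases ind X (edg y' d) <;> rfl

end Pool.Helper86.MM
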